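import Mathlib
import Pool.Agent.H.MP_ce47b3_al.Defs
import Pool.Agent.H.MP_ce47b3_al.Main

namespace Pool.Agent.Results.MP_ce47b3_al.Counter
open Pool.Agent.H.MP_ce47b3_al Pool.Agent.Lib.helper10.RelFree Pool.Agent.Lib.helper10.VarDefs
open FreeNonUnitalNonAssocAlgebra

theorem result : ∃ S : Set (FreeNonUnitalNonAssocAlgebra ℚ ℕ), (∀ f ∈ S, Multilinear f) ∧
    ∃ (F : Type) (_ : NonUnitalNonAssocRing F) (_ : Module ℚ F) (_ : IsScalarTower ℚ F F)
      (_ : SMulCommClass ℚ F F), IsFree S F ∧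
      ∃ π : F →ₙₐ[ℚ] F, (∀ a, π (π a) = π a) ∧ ¬ IsFree S (NonUnitalAlgHom.range π) := by
  have hF := sat SS (Fin 2)
  let i : Fin 2 → B SS (Fin 2) := fun j => pr SS (Fin 2) (of ℚ j)
  have hU : ∀ (A : Type) [NonUnitalNonAssocRing A] [Module ℚ A]
      [IsScalarTower ℚ A A] [SMulCommClass ℚ A A], Sat SS A →
      ∀ a : Fin 2 → A, ∃! φ : B SS (Fin 2) →ₙₐ[ℚ] A, ∀ y, φ (i y) = a y := by
    intro A _ _ _ _ hA a
    obtain ⟨φ, hφ⟩ := univ SS (Fin 2) hA a
    exact ⟨φ, hφ, fun ψ hψ => hom_ext _ _ _ _ (fun j => (hψ j).trans (hφ j).symm)⟩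
  obtain ⟨π, hπ, -⟩ := hU _ hF ![px (i 0) (i 1), py (i 0) (i 1)]
  have h0 : π (i 0) = px (i 0) (i 1) := hπ 0
  have h1 : π (i 1) = py (i 0) (i 1) := hπ 1
  have hππ : ∀ a, π (π a) = π a := by
    have : π.comp π = π := by
      refine hom_ext _ _ _ _ (Fin.forall_fin_two.mpr ⟨?_, ?_⟩)
      · show π (π (i 0)) = π (i 0)
        rw [h0, map_px, h0, h1, (idem hF _ _).1]
      · show π (π (i 1)) = π (i 1)
        rw [h1, map_py, h0, h1, (idem hF _ _).2]
    exact DFunLike.congr_fun this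
  refine ⟨SS, multi, B SS (Fin 2), inferInstance, inferInstance, inferInstance, inferInstance,
    ⟨hF, Fin 2, i, hU⟩, π, hππ, ?_⟩
  rintro ⟨-, Y, j, hB⟩
  let π' : B SS (Fin 2) →ₙₐ[ℚ] NonUnitalAlgHom.range π := NonUnitalAlgHom.rangeRestrict π
  have hs : ∀ b, ∃ a, π' a = b := by
    rintro ⟨_, a, rfl⟩
    exact ⟨a, rfl⟩
  have hsub : Subsingleton Y := by
    classical
    refine ⟨fun y1 y2 => by_contra fun hne => ?_⟩
    obtain ⟨φ, hφ, -⟩ := hB Z Z_sat (fun y => if y = y1 then ((1 : ℚ), (0 : ℚ)) else (0, 1))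
    let ψ := φ.comp π'
    have k1 : ∀ w ∈ N (B SS (Fin 2)), ψ w = 0 := by
      intro w hw
      induction hw using Submodule.span_induction with
      | mem p hp => obtain ⟨a, b, rfl⟩ := hp; rw [map_mul, Z_mul]
      | zero => exact map_zero _
      | add x y _ _ hx hy => rw [map_add, hx, hy, add_zero]
      | smul c x _ hx => rw [map_smul, hx, smul_zero]
    have k2 : ψ (i 1) = 0 := by
      rw [← k1 _ (pyN (i 0) (i 1)), ← h1]
      exact congrArg φ (Subtype.ext (hππ _).symm)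
    let C : NonUnitalSubalgebra ℚ Z := (Submodule.span ℚ {ψ (i 0)}).toNonUnitalSubalgebra
      (fun a b _ _ => by rw [Z_mul]; exact zero_mem _)
    have k3 := gen_mem i hU Z_sat C ψ (Fin.forall_fin_two.mpr
      ⟨Submodule.mem_span_singleton_self _, by rw [k2]; exact zero_mem _⟩)
    obtain ⟨a1, e1⟩ := hs (j y1)
    obtain ⟨a2, e2⟩ := hs (j y2)
    obtain ⟨c1, f1⟩ := Submodule.mem_span_singleton.mp (k3 a1)
    obtain ⟨c2, f2⟩ := Submodule.mem_span_singleton.mp (k3 a2)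
    have g1 : ψ a1 = ((1 : ℚ), (0 : ℚ)) := by
      show φ (π' a1) = _
      rw [e1, hφ, if_pos rfl]
    have g2 : ψ a2 = ((0 : ℚ), (1 : ℚ)) := by
      show φ (π' a2) = _
      rw [e2, hφ, if_neg (Ne.symm hne)]
    rw [g1] at f1
    rw [g2] at f2
    generalize ψ (i 0) = u at f1 f2
    have t1 : c1 * u.1 = 1 := congrArg Prod.fst f1
    have t2 : c1 * u.2 = 0 := congrArg Prod.snd f1
    have t3 : c2 * u.2 = 1 := congrArg Prod.snd f2
    have : (1 : ℚ) = 0 := by linear_combination (-1) * t1 - c1 * u.1 * t3 + c2 * u.1 * t2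
    exact one_ne_zero this
  have snd : ∀ c p, (mkd c p).2 = p := fun _ _ => rfl
  have d1 : dd.eval 1 = 1 := by simp [dd]
  have d2 : dd.eval (-1) = 0 := by simp [dd]; norm_num
  obtain ⟨ρ, hρ, -⟩ := hU Md Md_sat ![mkd 1 1, mkd 0 1]
  have r0 : ρ (i 0) = mkd 1 1 := hρ 0
  have r1 : ρ (i 1) = mkd 0 1 := hρ 1
  have s0 := (show ρ (π (i 0)) = px (mkd 1 1) (mkd 0 1) by rw [h0, map_px, r0, r1]).trans model.1
  have s1 := (show ρ (π (i 1)) = py (mkd 1 1) (mkd 0 1) by rw [h1, map_py, r0, r1]).trans model.2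
  obtain ⟨b, hb⟩ : ∃ b : NonUnitalAlgHom.range π, ∀ y, j y = b := by
    rcases isEmpty_or_nonempty Y with h | ⟨⟨y⟩⟩
    · exact ⟨0, fun y => h.elim y⟩
    · exact ⟨j y, fun y' => by rw [Subsingleton.elim y y']⟩
  let ρ' := ρ.comp (NonUnitalSubalgebraClass.subtype (NonUnitalAlgHom.range π))
  have kW := gen_mem j hB Md_sat (sub (W (ρ' b).2) (W_rr _) (W_ss _)) ρ'
    (fun y => by rw [hb]; exact W_self _)
  have kJ := gen_mem i hU Md_sat (sub J J_rr J_ss) (ρ.comp π) (Fin.forall_fin_two.mpr ⟨by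
      show ρ (π (i 0)) ∈ _
      rw [s0]
      show evp _ = _ * evm _
      simp [snd, d1, d2], by
      show ρ (π (i 1)) ∈ _
      rw [s1]
      show evp _ = _ * evm _
      simp [snd, d1, d2]⟩)
  obtain ⟨a, rfl⟩ := hs b
  have w0 : (ρ (π (i 0))).2 ∈ W _ := kW (π' (i 0))
  have w1 : (ρ (π (i 1))).2 ∈ W _ := kW (π' (i 1))
  rw [s0, snd] at w0
  rw [s1, snd] at w1
  refine not_cyclic _ _ (dd * (1 - Polynomial.X)) ?_ ?_ (kJ a) w1 ?_
  · intro h
    have := congrArg (Polynomial.eval 0) h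
    simp [dd] at this
  · refine Eq.mpr (congrArg (· ∈ W _) ?_) (sub_mem w0 w1)
    simp only [map_mul, map_sub, map_one]
    ring
  · simp [d2]

end Pool.Agent.Results.MP_ce47b3_al.Counter
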